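import Pool.Agent.Helper62.DSH.StC

/-!
# Module STA of project DSH: algebra of the star
-/

set_option autoImplicit false

open Set Filter Topology MeasureTheory
open Helper62.LH Helper62.DSH

noncomputable section

namespace Pool.Agent.Helper40.DSH

/-- leaving out a vector of the second group -/
theorem append_natAdd {X : Type*} {m l : ℕ} (u : Fin m → X) (w : Fin (l + 1) → X)
    (c : Fin (l + 1)) (i : Fin (m + l)) :
    Fin.append u w ((Fin.natAdd m c).succAbove i) =
      Fin.append u (fun j => w (c.succAbove j)) i := by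
  refine Fin.addCases (fun j => ?_) (fun j => ?_) i
  · have h1 : (Fin.natAdd m c).succAbove (Fin.castAdd l j) = Fin.castAdd (l + 1) j := by
      apply Fin.ext
      rw [Fin.succAbove_of_castSucc_lt]
      · simp
      · rw [Fin.lt_def]
        simp
        omega
    rw [h1, Fin.append_left, Fin.append_left]
  · have h1 : (Fin.natAdd m c).succAbove (Fin.natAdd m j) = Fin.natAdd m (c.succAbove j) := by
      apply Fin.ext
      rcases lt_or_ge j.castSucc c with hc | hc
      · rw [Fin.succAbove_of_castSucc_lt _ _ hc, Fin.succAbove_of_castSucc_lt]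
        · simp
        · rw [Fin.lt_def] at hc ⊢
          simp at hc ⊢
          omega
      · rw [Fin.succAbove_of_le_castSucc _ _ hc, Fin.succAbove_of_le_castSucc]
        · simp
          omega
        · rw [Fin.le_def] at hc ⊢
          simp at hc ⊢
          omega
    rw [h1, Fin.append_right, Fin.append_right]

/-- leaving out a vector of the first group -/
theorem append_castAdd {X : Type*} {k l : ℕ} (u : Fin (k + 1) → X) (w : Fin (l + 1) → X)
    (s : Fin (k + 1)) (h' : k + (l + 1) = k + 1 + l) (i : Fin (k + 1 + l)) :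
    Fin.append u w ((Fin.castAdd (l + 1) s).succAbove i) =
      Fin.append (fun j => u (s.succAbove j)) w (Fin.cast h'.symm i) := by
  obtain ⟨i', rfl⟩ : ∃ i' : Fin (k + (l + 1)), i = Fin.cast h' i' :=
    ⟨Fin.cast h'.symm i, by simp⟩
  rw [Fin.cast_cast, Fin.cast_eq_self]
  refine Fin.addCases (fun j => ?_) (fun j => ?_) i'
  · have h1 : (Fin.castAdd (l + 1) s).succAbove (Fin.cast h' (Fin.castAdd (l + 1) j)) =
        Fin.castAdd (l + 1) (s.succAbove j) := by
      apply Fin.ext
      rcases lt_or_ge j.castSucc s with hc | hc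
      · rw [Fin.succAbove_of_castSucc_lt _ _ hc, Fin.succAbove_of_castSucc_lt]
        · simp
        · rw [Fin.lt_def] at hc ⊢
          simp at hc ⊢
          omega
      · rw [Fin.succAbove_of_le_castSucc _ _ hc, Fin.succAbove_of_le_castSucc]
        · simp
        · rw [Fin.le_def] at hc ⊢
          simp at hc ⊢
          omega
    rw [h1, Fin.append_left, Fin.append_left]
  · have h1 : (Fin.castAdd (l + 1) s).succAbove (Fin.cast h' (Fin.natAdd k j)) =
        Fin.natAdd (k + 1) j := by
      apply Fin.ext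
      rw [Fin.succAbove_of_le_castSucc]
      · simp
        omega
      · rw [Fin.le_def]
        simp
        omega
    rw [h1, Fin.append_right, Fin.append_right]

/-- contraction with a fixed index preserves alternating families -/
theorem altn_cons {n k : ℕ} (t : Tn n (k + 1)) (ht : Altn t) (a : Fin n) (K : Fin k → Fin n)
    (σ : Equiv.Perm (Fin k)) :
    t (Fin.cons a (K ∘ σ)) = ((Equiv.Perm.sign σ : ℤ) : ℝ) * t (Fin.cons a K) := by
  have h1 := ht (Fin.cons a K) (Equiv.Perm.decomposeFin.symm (0, σ))
  rw [Equiv.Perm.decomposeFin.symm_sign] at h1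
  simp only [if_true, one_mul] at h1
  rw [← h1]
  congr 1
  funext i
  refine Fin.cases ?_ (fun j => ?_) i
  · simp
  · simp

theorem hSta (hEps : StEps) (hDtz : StDtz) (hAlt : TAlt) : TSta := by
  intro n k l h p hp hyp K₀
  subst h
  have h' : k + (l + 1) = k + 1 + l := by omega
  obtain ⟨D, hD⟩ : ∃ D : Tn (k + 1 + l) k, D = fun K => ∑ a, p a (Fin.cons a K) := ⟨_, rfl⟩
  -- the identity for fixed indices
  have key : ∀ (L : Fin (l + 1) → Fin (k + 1 + l)) (I : Fin (k + 1) → Fin (k + 1 + l)),
      (∑ s : Fin (k + 1), (-1 : ℝ) ^ (s : ℕ) *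
        (p (I s) I * eps h' (fun j => I (s.succAbove j)) L)) +
      (∑ c : Fin (l + 1), (-1 : ℝ) ^ (k + 1 + (c : ℕ)) *
        (p (L c) I * eps rfl I (fun i => L (c.succAbove i)))) = 0 := by
    intro L I
    have h1 := hDtz (k + 1 + l)
      (Fin.append (fun a => ee (I a)) (fun c => ee (L c)) : Fin (k + 1 + (l + 1)) → E (k + 1 + l))
      (∑ a, p a I • (EuclideanSpace.proj a : E (k + 1 + l) →L[ℝ] ℝ))
    have hlam : ∀ b : Fin (k + 1 + l),
        (∑ a, p a I • (EuclideanSpace.proj a : E (k + 1 + l) →L[ℝ] ℝ)) (ee b) = p b I := by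
      intro b
      rw [sum_apply]
      rw [Finset.sum_eq_single b]
      · simp [ee]
      · intro a _ hab
        simp [ee, hab]
      · intro hb
        exact absurd (Finset.mem_univ b) hb
    rw [show (∑ b : Fin (k + 1 + l + 1), (-1 : ℝ) ^ (b : ℕ) *
        ((∑ a, p a I • (EuclideanSpace.proj a : E (k + 1 + l) →L[ℝ] ℝ))
          ((Fin.append (fun a => ee (I a)) (fun c => ee (L c)) :
            Fin (k + 1 + (l + 1)) → E (k + 1 + l)) b) *
        vdet (fun i => (Fin.append (fun a => ee (I a)) (fun c => ee (L c)) :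
            Fin (k + 1 + (l + 1)) → E (k + 1 + l)) (b.succAbove i)))) =
        ∑ b : Fin (k + 1 + (l + 1)), (-1 : ℝ) ^ (b : ℕ) *
        ((∑ a, p a I • (EuclideanSpace.proj a : E (k + 1 + l) →L[ℝ] ℝ))
          ((Fin.append (fun a => ee (I a)) (fun c => ee (L c)) :
            Fin (k + 1 + (l + 1)) → E (k + 1 + l)) b) *
        vdet (fun i => (Fin.append (fun a => ee (I a)) (fun c => ee (L c)) :
            Fin (k + 1 + (l + 1)) → E (k + 1 + l)) (b.succAbove i))) from rfl,
      Fin.sum_univ_add] at h1
    rw [← h1]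
    congr 1
    · apply Finset.sum_congr rfl
      intro s _
      rw [Fin.append_left, hlam, Fin.val_castAdd]
      congr 2
      unfold eps ap
      congr 1
      funext i
      rw [append_castAdd _ _ s h' i]
    · apply Finset.sum_congr rfl
      intro c _
      rw [Fin.append_right, hlam, Fin.val_natAdd]
      congr 2
      unfold eps ap
      congr 1
      funext i
      rw [append_natAdd _ _ c i]
      rfl
  -- the sum over all `I`
  have hsum : ∀ L : Fin (l + 1) → Fin (k + 1 + l), ∑ K, D K * eps h' K L = 0 := by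
    intro L
    have h2 : ∑ I : Fin (k + 1) → Fin (k + 1 + l),
        ((∑ s : Fin (k + 1), (-1 : ℝ) ^ (s : ℕ) *
          (p (I s) I * eps h' (fun j => I (s.succAbove j)) L)) +
        (∑ c : Fin (l + 1), (-1 : ℝ) ^ (k + 1 + (c : ℕ)) *
          (p (L c) I * eps rfl I (fun i => L (c.succAbove i))))) = 0 :=
      Finset.sum_eq_zero fun I _ => key L I
    rw [Finset.sum_add_distrib] at h2
    have h3 : ∑ I : Fin (k + 1) → Fin (k + 1 + l),
        (∑ c : Fin (l + 1), (-1 : ℝ) ^ (k + 1 + (c : ℕ)) *
          (p (L c) I * eps rfl I (fun i => L (c.succAbove i)))) = 0 := by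
      rw [Finset.sum_comm]
      have h4 := congrArg (fun z => (-1 : ℝ) ^ (k + 1) * z) (hyp L)
      simp only [mul_zero] at h4
      rw [← h4, Finset.mul_sum]
      apply Finset.sum_congr rfl
      intro c _
      rw [Finset.mul_sum, Finset.mul_sum]
      apply Finset.sum_congr rfl
      intro I _
      rw [pow_add]
      ring
    rw [h3, add_zero, Finset.sum_comm] at h2
    have h5 : ∀ s : Fin (k + 1), ∑ I : Fin (k + 1) → Fin (k + 1 + l), (-1 : ℝ) ^ (s : ℕ) *
          (p (I s) I * eps h' (fun j => I (s.succAbove j)) L) = ∑ K, D K * eps h' K L := by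
      intro s
      rw [← Equiv.sum_comp (Fin.insertNthEquiv (fun _ => Fin (k + 1 + l)) s), Fintype.sum_prod_type,
        Finset.sum_comm]
      apply Finset.sum_congr rfl
      intro K _
      rw [hD, Finset.sum_mul]
      apply Finset.sum_congr rfl
      intro a _
      simp only [Fin.insertNthEquiv_apply, Fin.insertNth_apply_same,
        Fin.insertNth_apply_succAbove]
      rw [show p a ((Fin.insertNthEquiv (fun _ => Fin (k + 1 + l)) s) (a, K)) =
        p a (s.insertNth a K) from rfl, (hAlt (k + 1 + l) k).2.2.2 (p a) (hp a) s a K]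
      have h6 : (-1 : ℝ) ^ (s : ℕ) * (-1 : ℝ) ^ (s : ℕ) = 1 := by
        rw [← mul_pow]
        simp
      calc (-1 : ℝ) ^ (s : ℕ) * ((-1 : ℝ) ^ (s : ℕ) * p a (Fin.cons a K) * eps h' K L)
          = ((-1 : ℝ) ^ (s : ℕ) * (-1 : ℝ) ^ (s : ℕ)) * (p a (Fin.cons a K) * eps h' K L) := by
            ring
        _ = p a (Fin.cons a K) * eps h' K L := by rw [h6, one_mul]
    rw [Finset.sum_congr rfl (fun s _ => h5 s), Finset.sum_const, Finset.card_univ,
      Fintype.card_fin, nsmul_eq_mul] at h2
    rcases mul_eq_zero.mp h2 with h7 | h7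
    · exfalso
      have : ((k + 1 : ℕ) : ℝ) ≠ 0 := by positivity
      exact this h7
    · exact h7
  -- `D` is alternating
  have hDa : Altn D := by
    intro K σ
    rw [hD]
    simp only
    rw [Finset.mul_sum]
    exact Finset.sum_congr rfl fun a _ => altn_cons (p a) (hp a) a K σ
  have hfin := hEps (k + 1 + l) k (l + 1) h' D ((hAlt (k + 1 + l) k).2.2.1 D hDa) hDa K₀
  rw [Finset.sum_comm] at hfin
  have hz : ∑ J : Fin (l + 1) → Fin (k + 1 + l), ∑ I : Fin k → Fin (k + 1 + l),
      eps h' I J * eps h' K₀ J * D I = 0 := by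
    apply Finset.sum_eq_zero
    intro J _
    have h8 := congrArg (fun z => eps h' K₀ J * z) (hsum J)
    simp only [mul_zero] at h8
    rw [← h8, Finset.mul_sum]
    apply Finset.sum_congr rfl
    intro I _
    ring
  rw [hz] at hfin
  have h9 : (k.factorial : ℝ) * ((l + 1).factorial : ℝ) ≠ 0 := by positivity
  have h10 : D K₀ = 0 := by
    rcases mul_eq_zero.mp hfin.symm with h11 | h11
    · exact absurd h11 h9
    · exact h11
  rw [hD] at h10
  exact h10

end Pool.Agent.Helper40.DSH
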